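import Pool.Agent.H37.CSZ.Stmts

/-! Row ZZP of board csz: `2 ^ n (q - 1)` divides `N` for `Sz(q)`. -/

set_option autoImplicit false

namespace Pool.CND

open Finset Matrix

private theorem zzp_emb (k F : Type) [Field k] [IsAlgClosed k] [Field F] [CharP F 2]
    (hk : CharP k 2) (hF0 : Nat.card F ≠ 0) : Nonempty (F →+* k) := by
  haveI : Finite F := Nat.finite_of_card_ne_zero hF0
  haveI : Fact (Nat.Prime 2) := ⟨Nat.prime_two⟩
  letI : Algebra (ZMod 2) F := ZMod.algebra F 2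
  letI : Algebra (ZMod 2) k := ZMod.algebra k 2
  exact ⟨(IsAlgClosed.lift (R := ZMod 2) (S := F) (M := k)).toRingHom⟩

private theorem zzp_cop (y : ℕ) : Nat.Coprime ((2 * y ^ 2 + 2 * y + 1) * (y + 1 + 1))
    ((y + 1) * (2 * y ^ 2 + 4 * y + 1)) := by
  have h1 : Nat.Coprime (2 * y ^ 2 + 2 * y + 1) (y + 1) := by
    have : 2 * y ^ 2 + 2 * y + 1 = 1 + (y + 1) * (2 * y) := by ring
    rw [this, Nat.coprime_add_mul_left_left]
    exact Nat.coprime_one_left _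
  have h2 : Nat.Coprime (2 * y ^ 2 + 2 * y + 1) (2 * y ^ 2 + 4 * y + 1) := by
    have : 2 * y ^ 2 + 4 * y + 1 = 2 * y + (2 * y ^ 2 + 2 * y + 1) * 1 := by ring
    rw [this, Nat.coprime_add_mul_left_right]
    have : 2 * y ^ 2 + 2 * y + 1 = 1 + (2 * y) * (y + 1) := by ring
    rw [this, Nat.coprime_add_mul_left_left]
    exact Nat.coprime_one_left _
  have h3 : Nat.Coprime (y + 1 + 1) (y + 1) := by
    have : y + 1 + 1 = 1 + (y + 1) * 1 := by ring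
    rw [this, Nat.coprime_add_mul_left_left]
    exact Nat.coprime_one_left _
  have h4 : Nat.Coprime (y + 1 + 1) (2 * y ^ 2 + 4 * y + 1) := by
    have : 2 * y ^ 2 + 4 * y + 1 = 1 + (y + 1 + 1) * (2 * y) := by ring
    rw [this, Nat.coprime_add_mul_left_right]
    exact Nat.coprime_one_right _
  exact (h1.mul_right h2).mul_left (h3.mul_right h4)

theorem zzp_thm (hZZE : S_ZZE) (hZZK : S_ZZK) (hZZN : S_ZZN) (hPUN : S_PUN) : S_ZZP := by
  intro n q f k F _ _ _ _ φ hk hn hf hq hF hφ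
  have hx : 2 ≤ 2 ^ n := by
    calc 2 = 2 ^ 1 := (pow_one 2).symm
      _ ≤ 2 ^ n := Nat.pow_le_pow_right (by norm_num) hn
  obtain ⟨y, hy⟩ : ∃ y, 2 ^ n = y + 1 := ⟨2 ^ n - 1, by omega⟩
  have hq' : q = 2 * (y + 1) ^ 2 := by
    rw [hq, pow_succ, mul_comm 2 n, pow_mul, hy]; ring
  have hf' : f = 2 * (y + 1) := by
    rw [hf, pow_succ, hy]; ring
  obtain ⟨e, he, he'⟩ : ∃ e, e + f = q + 1 ∧ e = 2 * y ^ 2 + 2 * y + 1 :=
    ⟨2 * y ^ 2 + 2 * y + 1, by rw [hq', hf']; ring, rfl⟩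
  have hq1 : q - 1 = 2 * y ^ 2 + 4 * y + 1 := by
    have : q = 2 * y ^ 2 + 4 * y + 1 + 1 := by rw [hq']; ring
    omega
  have hq0 : 1 ≤ q := by rw [hq']; nlinarith [Nat.zero_le y]
  have hF0 : Nat.card F ≠ 0 := by rw [hF]; omega
  obtain ⟨ψ⟩ := zzp_emb k F hk hF0
  letI : Algebra F k := ψ.toAlgebra
  haveI : Finite F := Nat.finite_of_card_ne_zero hF0
  haveI : Finite (Matrix.SpecialLinearGroup (Fin 4) F) :=
    inferInstanceAs (Finite {A : Matrix (Fin 4) (Fin 4) F // A.det = 1})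
  haveI : Finite (Sz φ) := inferInstance
  obtain ⟨L, _, _, t, X, ρ, P, hD⟩ := hZZE n q f e k F φ hk hn hf hq he hF hφ
  have hcov := hZZK n q f e k F L φ t X ρ P hk hn hf hq he hF hφ hD
  have hcon := hZZN n q f e k F L φ t X ρ P hk hn hf hq he hF hφ hD
  have hord : P.ord t < 0 := by
    rw [hD.ord_t]
    have : 0 < q ^ 2 * (q - 1) := by
      rw [hq1]; positivity
    omega
  have hmem : (((e * (2 ^ n + 1) : ℕ) : ℚ) / (2 ^ n * (q - 1) : ℕ)) ∈ Cond k (Sz φ) :=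
    ⟨L, _, _, ρ, t, hcov, P, hord, hcon⟩
  have h := hPUN 2 k (Sz φ) _ Nat.prime_two hk hmem
  rw [hy, hq1, he'] at h
  rw [hy, hq1]
  have hden : ((((2 * y ^ 2 + 2 * y + 1) * (y + 1 + 1) : ℕ) : ℚ) /
      ((y + 1) * (2 * y ^ 2 + 4 * y + 1) : ℕ)).den = (y + 1) * (2 * y ^ 2 + 4 * y + 1) := by
    have h1 := Rat.den_div_eq_of_coprime
      (a := (((2 * y ^ 2 + 2 * y + 1) * (y + 1 + 1) : ℕ) : ℤ))
      (b := (((y + 1) * (2 * y ^ 2 + 4 * y + 1) : ℕ) : ℤ)) (by positivity)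
      (by rw [Int.natAbs_natCast, Int.natAbs_natCast]; exact zzp_cop y)
    have h3 : ((((((2 * y ^ 2 + 2 * y + 1) * (y + 1 + 1) : ℕ) : ℤ) : ℚ) /
        ((((y + 1) * (2 * y ^ 2 + 4 * y + 1) : ℕ) : ℤ) : ℚ))) =
        ((((2 * y ^ 2 + 2 * y + 1) * (y + 1 + 1) : ℕ) : ℚ) /
          ((y + 1) * (2 * y ^ 2 + 4 * y + 1) : ℕ)) := by
      rw [Int.cast_natCast, Int.cast_natCast]
    rw [h3] at h1
    exact_mod_cast h1
  rw [hden] at h
  exact h

end Pool.CND
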